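import Mathlib
import Pool.Agent.Run7.h16.AB.Final

/-!
# The Tate conjecture over finite fields: Weil numbers in abelian CM fields

Let `K i` (finitely many) be CM fields that are abelian over `ℚ`, let `π i` be Weil numbers of
weight `m i` with respect to the prime number `p` that generate the fields `K i`, and let `V i` be
semisimple Frobenius modules with eigenvalues conjugate to `π i`, for instance `H¹` of a simple
abelian variety `A i`. `PairingsGenerate` says that all Tate classes, over all finite extensions, in
all tensor products of the `V i` (in particular in the cohomology of all products of powers of the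
`A i`) are combinations of products of pairings. For abelian varieties the pairings are classes of
divisors by the theorem of Tate.

The exact criterion: `PairingsGenerate` holds if and only if

* for each `i` and each CM subfield `T` of `K i` that is cyclic over `ℚ`, no positive power of the
  norm of `π i` to `T` is a product of elements of proper subfields of `T`, and
* isomorphic subfields of two different members of the family are totally real.
-/

namespace Pool.Agent.Results.MP_021685_ag.AbelianFields

open NumberField Pool.Agent.W527 Run7.h16.AB

theorem result {p : ℕ} [Fact p.Prime] {I : Type} [Fintype I] {K : I → Type} [∀ i, Field (K i)]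
    [∀ i, NumberField (K i)] [∀ i, IsCMField (K i)] [∀ i, IsAbelianGalois ℚ (K i)]
    (m : I → ℕ) (π : ∀ i, K i) (hint : ∀ i, IsIntegral ℤ (π i))
    (hgen : ∀ i, IntermediateField.adjoin ℚ {π i} = ⊤)
    (hweil : ∀ i, ∀ φ : K i →+* ℂ, ‖φ (π i)‖ ^ 2 = (p : ℝ) ^ m i) :
    Norm.PairingsGenerate p m π ↔ NormsIndecomposable π ∧ RealIntersections K :=
  abelian_criterion m π hint hgen hweil

end Pool.Agent.Results.MP_021685_ag.AbelianFields
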